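import Mathlib

/-!
# Cyclicity notions for universal partial words

For every finite alphabet `A` with at least two letters (in particular `{0,1}`), every `n ≥ 1` and
every nontrivial universal partial word `w` for `A^n`, the following are equivalent:
`w` has well-defined diamondicity; `w` is pseudocyclic; `w` is cyclic.

`none : Option A` is the wild-card symbol, `some a` is the letter `a`.
-/

namespace Pool.Agent.Results.MP_e9025c_co.CyclicityNotions

/-- The word `u` of length `n` is covered by the partial word `w` at position `i`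
(positions are counted from `0`): the `n` characters of `w` starting at position `i` exist, and
each of them is a wild-card or the corresponding letter of `u`. -/
def Covered {A : Type} (n : ℕ) (w : List (Option A)) (i : ℕ) (u : Fin n → A) : Prop :=
  i + n ≤ w.length ∧ ∀ j : Fin n, w[i + j.1]? = some none ∨ w[i + j.1]? = some (some (u j))

/-- `w` is a universal partial word for `A^n`: each word of length `n` is covered at exactly
one position. -/
def Universal {A : Type} (n : ℕ) (w : List (Option A)) : Prop :=
  ∀ u : Fin n → A, ∃! i : ℕ, Covered n w i u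

/-- `w` is trivial: it is `⋄^n` or it contains no wild-card. -/
def IsTrivial {A : Type} (n : ℕ) (w : List (Option A)) : Prop :=
  w = List.replicate n none ∨ none ∉ w

/-- All windows (blocks of `n` consecutive characters) contain the same number of wild-cards. -/
def WellDefinedDiamondicity {A : Type} [DecidableEq A] (n : ℕ) (w : List (Option A)) : Prop :=
  ∃ d : ℕ, ∀ i : ℕ, i + n ≤ w.length → ((w.drop i).take n).count none = d

/-- The first `n - 1` characters and the last `n - 1` characters are identical strings. -/
def Pseudocyclic {A : Type} (n : ℕ) (w : List (Option A)) : Prop :=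
  n - 1 ≤ w.length ∧ w.take (n - 1) = w.drop (w.length - (n - 1))

/-- Pseudocyclic, and the two blocks do not overlap. -/
def Cyclic {A : Type} (n : ℕ) (w : List (Option A)) : Prop :=
  2 * (n - 1) ≤ w.length ∧ w.take (n - 1) = w.drop (w.length - (n - 1))

section core

variable {A : Type}

/-- a character matches a letter -/
def ok (o : Option A) (a : A) : Prop := o = none ∨ o = some a

/-- the block of length `m` starting at `i` is compatible with `y` -/
def P (g : ℕ → Option A) (m i : ℕ) (y : Fin m → A) : Prop := ∀ j : Fin m, ok (g (i + j.1)) (y j)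

open Classical in
/-- number of letters matched by a character -/
noncomputable def c [Fintype A] (o : Option A) : ℕ := (Finset.univ.filter fun z : A => ok o z).card

/-- abstract universality -/
def U (g : ℕ → Option A) (m M : ℕ) : Prop :=
  ∀ u : Fin (m + 1) → A, ∃! i : ℕ, i < M ∧ P g (m + 1) i u

lemma P_snoc (g : ℕ → Option A) (m i : ℕ) (y : Fin m → A) (z : A) :
    P g (m + 1) i (Fin.snoc (α := fun _ => A) y z) ↔ P g m i y ∧ ok (g (i + m)) z := by
  unfold P
  rw [Fin.forall_fin_succ']
  simp

lemma P_cons (g : ℕ → Option A) (m i : ℕ) (y : Fin m → A) (x : A) :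
    P g (m + 1) i (Fin.cons (α := fun _ => A) x y) ↔ ok (g i) x ∧ P g m (i + 1) y := by
  unfold P
  rw [Fin.forall_fin_succ]
  simp only [Fin.val_zero, Fin.cons_zero, Fin.val_succ, Fin.cons_succ]
  constructor
  · rintro ⟨h1, h2⟩
    refine ⟨by simpa using h1, fun j => ?_⟩
    have := h2 j
    rwa [show i + (j.1 + 1) = i + 1 + j.1 by ring] at this
  · rintro ⟨h1, h2⟩
    refine ⟨by simpa using h1, fun j => ?_⟩
    have := h2 j
    rwa [show i + (j.1 + 1) = i + 1 + j.1 by ring]

open Classical in
lemma sum_one {M : ℕ} {Q : ℕ → Prop} (h : ∃! i : ℕ, i < M ∧ Q i) :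
    ∑ i ∈ Finset.range M, (if Q i then 1 else 0) = 1 := by
  obtain ⟨i, ⟨hi, hQ⟩, hu⟩ := h
  rw [Finset.sum_eq_single i]
  · simp [hQ]
  · intro b hb hbi
    rw [if_neg]
    intro hQb
    exact hbi (hu b ⟨Finset.mem_range.mp hb, hQb⟩)
  · intro h
    exact absurd (Finset.mem_range.mpr hi) h

open Classical in
lemma count_right [Fintype A] {g : ℕ → Option A} {m M : ℕ} (H : U g m M) (y : Fin m → A) :
    ∑ i ∈ Finset.range M, (if P g m i y then c (g (i + m)) else 0) = Fintype.card A := by
  have h1 : ∀ z : A, ∑ i ∈ Finset.range M,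
      (if P g m i y ∧ ok (g (i + m)) z then 1 else 0) = 1 := by
    intro z
    have h := H (Fin.snoc (α := fun _ => A) y z)
    simp only [P_snoc] at h
    convert sum_one h
  have h2 : ∑ z : A, ∑ i ∈ Finset.range M,
      (if P g m i y ∧ ok (g (i + m)) z then 1 else 0) = Fintype.card A := by
    rw [Finset.sum_congr rfl (fun z _ => h1 z)]
    simp
  rw [← h2, Finset.sum_comm]
  refine Finset.sum_congr rfl fun i _ => ?_
  by_cases hP : P g m i y
  · simp [hP, c]
  · simp [hP]

open Classical in
lemma count_left [Fintype A] {g : ℕ → Option A} {m M : ℕ} (H : U g m M) (y : Fin m → A) :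
    ∑ i ∈ Finset.range M, (if P g m (i + 1) y then c (g i) else 0) = Fintype.card A := by
  have h1 : ∀ z : A, ∑ i ∈ Finset.range M,
      (if ok (g i) z ∧ P g m (i + 1) y then 1 else 0) = 1 := by
    intro z
    have h := H (Fin.cons (α := fun _ => A) z y)
    simp only [P_cons] at h
    convert sum_one h
  have h2 : ∑ z : A, ∑ i ∈ Finset.range M,
      (if ok (g i) z ∧ P g m (i + 1) y then 1 else 0) = Fintype.card A := by
    rw [Finset.sum_congr rfl (fun z _ => h1 z)]
    simp
  rw [← h2, Finset.sum_comm]
  refine Finset.sum_congr rfl fun i _ => ?_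
  by_cases hP : P g m (i + 1) y
  · simp [hP, c]
  · simp [hP]

lemma c_none [Fintype A] : c (none : Option A) = Fintype.card A := by
  classical
  simp [c, ok]

lemma c_some [Fintype A] (a : A) : c (some a) = 1 := by
  classical
  have : (Finset.univ.filter fun z : A => ok (some a) z) = {a} := by
    ext z
    simp [ok, eq_comm]
  simp only [c]
  convert Finset.card_singleton a

lemma c_pos [Fintype A] [Nonempty A] (o : Option A) : 0 < c o := by
  cases o with
  | none => rw [c_none]; exact Fintype.card_pos
  | some a => rw [c_some]; exact one_pos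

lemma c_eq [Fintype A] {o o' : Option A} (h : o = none ↔ o' = none) : c o = c o' := by
  cases o with
  | none =>
    have := h.mp rfl
    rw [this]
  | some a =>
    cases o' with
    | none => exact absurd (h.mpr rfl) (by simp)
    | some b => rw [c_some, c_some]

/-- Counting: if wild-cards are `n`-periodic then the first and last blocks are compatible with
the same words. -/
lemma compat_iff [Fintype A] [Nonempty A] {g : ℕ → Option A} {m M : ℕ} (H : U g m M)
    (hM : 0 < M)
    (hper : ∀ i, i + 1 < M → (g i = none ↔ g (i + m + 1) = none)) (y : Fin m → A) :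
    P g m 0 y ↔ P g m M y := by
  classical
  obtain ⟨K, rfl⟩ : ∃ K, M = K + 1 := ⟨M - 1, by omega⟩
  have h1 := count_right H y
  have h2 := count_left H y
  rw [Finset.sum_range_succ'] at h1
  rw [Finset.sum_range_succ] at h2
  have h3 : ∑ i ∈ Finset.range K, (if P g m (i + 1) y then c (g i) else 0) =
      ∑ i ∈ Finset.range K, (if P g m (i + 1) y then c (g (i + 1 + m)) else 0) := by
    refine Finset.sum_congr rfl fun i hi => ?_
    have hi' := Finset.mem_range.mp hi
    rw [c_eq (o := g i) (o' := g (i + 1 + m))]
    have := hper i (by omega)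
    rwa [show i + m + 1 = i + 1 + m by ring] at this
  rw [h3] at h2
  have h4 : (if P g m 0 y then c (g (0 + m)) else 0) = (if P g m (K + 1) y then c (g K) else 0) := by
    omega
  constructor
  · intro hP
    by_contra hN
    rw [if_pos hP, if_neg hN] at h4
    have := c_pos (g (0 + m))
    omega
  · intro hP
    by_contra hN
    rw [if_pos hP, if_neg hN] at h4
    have := c_pos (g K)
    omega

lemma exists_compat [Nonempty A] (g : ℕ → Option A) (m i : ℕ) (j : Fin m) (a : A)
    (h : ok (g (i + j.1)) a) : ∃ y : Fin m → A, P g m i y ∧ y j = a := by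
  classical
  refine ⟨fun t => if t = j then a else (g (i + t.1)).getD (Classical.arbitrary A), ?_, by simp⟩
  intro t
  by_cases ht : t = j
  · subst ht
    simpa using h
  · simp only [ht, if_false]
    cases hg : g (i + t.1) with
    | none => left; rfl
    | some b => right; simp

lemma eq_of_ok [Nontrivial A] {o o' : Option A} (h : ∀ a, ok o a ↔ ok o' a) : o = o' := by
  cases o with
  | none =>
    cases o' with
    | none => rfl
    | some b =>
      obtain ⟨b', hb'⟩ := exists_ne b
      have := (h b').mp (Or.inl rfl)
      rcases this with h | h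
      · exact absurd h (by simp)
      · simp at h; exact absurd h.symm hb'
  | some a =>
    have := (h a).mp (Or.inr rfl)
    rcases this with h1 | h1
    · subst h1
      obtain ⟨b', hb'⟩ := exists_ne a
      have := (h b').mpr (Or.inl rfl)
      rcases this with h | h
      · exact absurd h (by simp)
      · simp at h; exact absurd h.symm hb'
    · exact h1.symm

lemma block_eq [Nontrivial A] {g : ℕ → Option A} {m M : ℕ}
    (h : ∀ y, P g m 0 y ↔ P g m M y) (j : ℕ) (hj : j < m) : g j = g (M + j) := by
  apply eq_of_ok
  intro a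
  constructor
  · intro ha
    obtain ⟨y, hy, hya⟩ := exists_compat g m 0 ⟨j, hj⟩ a (by simpa using ha)
    have := (h y).mp hy ⟨j, hj⟩
    simpa [hya] using this
  · intro ha
    obtain ⟨y, hy, hya⟩ := exists_compat g m M ⟨j, hj⟩ a (by simpa using ha)
    have := (h y).mpr hy ⟨j, hj⟩
    simpa [hya] using this

/-- Pseudocyclic words have `n`-periodic wild-cards. -/
lemma per_of_pseudo [Nontrivial A] {g : ℕ → Option A} {m M : ℕ} (H : U g m M)
    (hps : ∀ j, j < m → g j = g (M + j)) (i : ℕ) (hi : i + 1 < M) :
    g i = none ↔ g (i + m + 1) = none := by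
  have hps' : ∀ y, P g m 0 y ↔ P g m M y := by
    intro y
    unfold P
    refine forall_congr' fun j => ?_
    rw [zero_add, hps j.1 j.2]
  obtain ⟨y, hy⟩ : ∃ y : Fin m → A, P g m (i + 1) y := by
    refine ⟨fun t => (g (i + 1 + t.1)).getD (Classical.arbitrary A), ?_⟩
    intro t
    cases hg : g (i + 1 + t.1) with
    | none => left; rfl
    | some b => right; simp [hg]
  constructor
  · intro hgi
    by_contra hne
    obtain ⟨z, hz⟩ := Option.ne_none_iff_exists'.mp hne
    obtain ⟨z', hz'⟩ := exists_ne z
    obtain ⟨k, ⟨hk, hPk⟩, -⟩ := H (Fin.snoc (α := fun _ => A) y z')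
    rw [P_snoc] at hPk
    have hk1 : k ≠ i + 1 := by
      rintro rfl
      rcases hPk.2 with h | h
      · rw [show i + 1 + m = i + m + 1 by ring, hz] at h
        exact absurd h (by simp)
      · rw [show i + 1 + m = i + m + 1 by ring, hz] at h
        simp at h
        exact hz' h.symm
    -- the predecessor of window k
    obtain ⟨l, hlM, hPl, hli⟩ : ∃ l, l < M ∧ P g m (l + 1) y ∧ l ≠ i := by
      by_cases h0 : k = 0
      · subst h0
        refine ⟨M - 1, by omega, ?_, by omega⟩
        rw [show M - 1 + 1 = M by omega]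
        exact (hps' y).mp hPk.1
      · refine ⟨k - 1, by omega, ?_, by omega⟩
        rw [show k - 1 + 1 = k by omega]
        exact hPk.1
    have hx : ∃ x : A, ok (g l) x := by
      cases hg : g l with
      | none => exact ⟨z, Or.inl rfl⟩
      | some b => exact ⟨b, Or.inr rfl⟩
    obtain ⟨x, hx⟩ := hx
    obtain ⟨_, -, huniq⟩ := H (Fin.cons (α := fun _ => A) x y)
    have e1 := huniq l ⟨hlM, (P_cons g m l y x).mpr ⟨hx, hPl⟩⟩
    have e2 := huniq i ⟨by omega, (P_cons g m i y x).mpr ⟨Or.inl hgi, hy⟩⟩
    exact hli (e1.trans e2.symm)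
  · intro hgi
    by_contra hne
    obtain ⟨x, hx⟩ := Option.ne_none_iff_exists'.mp hne
    obtain ⟨x', hx'⟩ := exists_ne x
    obtain ⟨k, ⟨hk, hPk⟩, -⟩ := H (Fin.cons (α := fun _ => A) x' y)
    rw [P_cons] at hPk
    have hk1 : k ≠ i := by
      rintro rfl
      rcases hPk.1 with h | h
      · rw [hx] at h
        exact absurd h (by simp)
      · rw [hx] at h
        simp at h
        exact hx' h.symm
    obtain ⟨l, hlM, hPl, hli⟩ : ∃ l, l < M ∧ P g m l y ∧ l ≠ i + 1 := by
      by_cases h0 : k + 1 = M
      · refine ⟨0, by omega, ?_, by omega⟩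
        rw [hps', ← h0]
        exact hPk.2
      · exact ⟨k + 1, by omega, hPk.2, by omega⟩
    have hz : ∃ z : A, ok (g (l + m)) z := by
      cases hg : g (l + m) with
      | none => exact ⟨x, Or.inl rfl⟩
      | some b => exact ⟨b, Or.inr rfl⟩
    obtain ⟨z, hz⟩ := hz
    obtain ⟨_, -, huniq⟩ := H (Fin.snoc (α := fun _ => A) y z)
    have e1 := huniq l ⟨hlM, (P_snoc g m l y z).mpr ⟨hPl, hz⟩⟩
    have e2 := huniq (i + 1) ⟨hi, (P_snoc g m (i + 1) y z).mpr
      ⟨hy, Or.inl (by rwa [show i + 1 + m = i + m + 1 by ring])⟩⟩
    exact hli (e1.trans e2.symm)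

/-- number of wild-cards in the window starting at `i` -/
def dn (g : ℕ → Option A) (n i : ℕ) : ℕ :=
  ∑ p ∈ Finset.range n, (if (g (i + p)).isNone then 1 else 0)

lemma dn_succ (g : ℕ → Option A) (m i : ℕ) :
    dn g (m + 1) (i + 1) + (if (g i).isNone then 1 else 0) =
      dn g (m + 1) i + (if (g (i + m + 1)).isNone then 1 else 0) := by
  unfold dn
  rw [Finset.sum_range_succ, Finset.sum_range_succ' _ m]
  have : ∀ p, i + 1 + p = i + (p + 1) := fun p => by ring
  simp only [this, add_zero]
  rw [show i + (m + 1) = i + m + 1 by ring]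
  ring

lemma isNone_ite (o : Option A) : (if o.isNone then 1 else 0 : ℕ) = if o.isNone then 1 else 0 := rfl

lemma per_iff_dn (g : ℕ → Option A) (m i : ℕ) :
    (g i = none ↔ g (i + m + 1) = none) ↔ dn g (m + 1) (i + 1) = dn g (m + 1) i := by
  have h := dn_succ g m i
  cases h1 : g i <;> cases h2 : g (i + m + 1) <;> simp [h1, h2] at h ⊢ <;> omega

lemma c_pow [Fintype A] (o : Option A) : c o = Fintype.card A ^ (if o.isNone then 1 else 0) := by
  cases o with
  | none => rw [c_none]; simp
  | some a => rw [c_some]; simp

open Classical in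
lemma card_cover [Fintype A] (g : ℕ → Option A) (n i : ℕ) :
    (Finset.univ.filter fun u : Fin n → A => P g n i u).card = Fintype.card A ^ dn g n i := by
  have h1 : (Finset.univ.filter fun u : Fin n → A => P g n i u) =
      Fintype.piFinset (fun p : Fin n => Finset.univ.filter fun z : A => ok (g (i + p.1)) z) := by
    ext u
    rw [Fintype.mem_piFinset]
    simp only [Finset.mem_filter, Finset.mem_univ, true_and]
    rfl
  rw [h1, Fintype.card_piFinset]
  have h2 : ∀ p : Fin n, (Finset.univ.filter fun z : A => ok (g (i + p.1)) z).card =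
      Fintype.card A ^ (if (g (i + p.1)).isNone then 1 else 0) := fun p => c_pow _
  rw [Finset.prod_congr rfl (fun p _ => h2 p), Finset.prod_pow_eq_pow_sum]
  congr 1
  exact Fin.sum_univ_eq_sum_range (fun p => if (g (i + p)).isNone then 1 else 0) n

open Classical in
lemma total [Fintype A] {g : ℕ → Option A} {m M d : ℕ} (H : U g m M)
    (hd : ∀ i, i < M → dn g (m + 1) i = d) :
    M * Fintype.card A ^ d = Fintype.card A ^ (m + 1) := by
  have h1 : ∀ u : Fin (m + 1) → A, ∑ i ∈ Finset.range M,
      (if P g (m + 1) i u then 1 else 0) = 1 := fun u => sum_one (H u)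
  have h2 : ∑ u : Fin (m + 1) → A, ∑ i ∈ Finset.range M,
      (if P g (m + 1) i u then 1 else 0) = Fintype.card A ^ (m + 1) := by
    rw [Finset.sum_congr rfl (fun u _ => h1 u)]
    simp
  rw [← h2, Finset.sum_comm]
  have h3 : ∀ i ∈ Finset.range M, ∑ u : Fin (m + 1) → A, (if P g (m + 1) i u then 1 else 0) =
      Fintype.card A ^ d := by
    intro i hi
    rw [← hd i (Finset.mem_range.mp hi), ← card_cover g (m + 1) i, Finset.card_filter]
  rw [Finset.sum_congr rfl h3]
  simp

lemma disagree [Nonempty A] {g : ℕ → Option A} {m M : ℕ} (H : U g m M) {i j : ℕ}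
    (hi : i < M) (hj : j < M) (hij : i ≠ j) :
    ∃ p, p < m + 1 ∧ g (i + p) ≠ none ∧ g (j + p) ≠ none := by
  by_contra hcon
  push Not at hcon
  let u : Fin (m + 1) → A := fun p =>
    (g (i + p.1)).getD ((g (j + p.1)).getD (Classical.arbitrary A))
  obtain ⟨_, -, huniq⟩ := H u
  apply hij
  rw [huniq i ⟨hi, ?_⟩, huniq j ⟨hj, ?_⟩]
  · intro p
    by_cases h : g (i + p.1) = none
    · cases hg : g (j + p.1) with
      | none => left; rfl
      | some b => right; simp [u, h, hg]
    · left
      exact hcon p.1 p.2 h
  · intro p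
    cases hg : g (i + p.1) with
    | none => left; rfl
    | some b => right; simp [u, hg]

lemma pow_bound (k : ℕ) (hk : 1 ≤ k) : k * k + 2 ≤ 2 ^ k + k := by
  induction k, hk using Nat.le_induction with
  | base => norm_num
  | succ k hk ih =>
    obtain ⟨l, rfl⟩ : ∃ l, k = l + 1 := ⟨k - 1, by omega⟩
    rw [pow_succ]
    nlinarith [Nat.zero_le (l * l), Nat.zero_le l, Nat.le_self_pow (two_ne_zero) l]

/-- The number of windows exceeds `n`, unless there is no letter. -/
lemma many_windows [Fintype A] [Nontrivial A] {g : ℕ → Option A} {m M d : ℕ} (H : U g m M)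
    (hM : 0 < M) (hd : ∀ i, i < M → dn g (m + 1) i = d) : m + 1 < M ∨ d = m + 1 := by
  classical
  have hper : ∀ i, i + 1 < M → (g i = none ↔ g (i + m + 1) = none) := by
    intro i hi
    rw [per_iff_dn, hd _ hi, hd _ (by omega)]
  have htot := total H hd
  set Λ : Finset ℕ := (Finset.range (m + 1)).filter fun p => g p ≠ none with hΛ
  have hcardΛ : Λ.card + d = m + 1 := by
    have h0 := hd 0 hM
    unfold dn at h0
    have h2 := Finset.card_filter_add_card_filter_not (s := Finset.range (m + 1))
      (fun p => g p ≠ none)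
    rw [Finset.card_range] at h2
    have h3 : ((Finset.range (m + 1)).filter fun p => ¬ (g p ≠ none)) =
        (Finset.range (m + 1)).filter fun p => (g (0 + p)).isNone := by
      apply Finset.filter_congr
      intro p _
      simp
    rw [h3, Finset.card_filter (fun p => (g (0 + p)).isNone = true), h0] at h2
    exact h2
  set k := Λ.card with hk
  by_cases hk0 : k = 0
  · right; omega
  left
  by_contra hle
  push Not at hle
  have hMk : M = Fintype.card A ^ k := by
    have hpos : 0 < Fintype.card A ^ d := Nat.pos_of_ne_zero (pow_ne_zero _ Fintype.card_ne_zero)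
    apply Nat.eq_of_mul_eq_mul_right hpos
    rw [htot, ← pow_add, hcardΛ]
  have h2k : 2 ^ k ≤ M := by
    rw [hMk]
    exact Nat.pow_le_pow_left Fintype.one_lt_card k
  -- the injection
  have hex : ∀ δ, δ ∈ Finset.Ico 1 M → ∃ pq : ℕ × ℕ, pq ∈ Λ.offDiag ∧
      (pq.1 + δ = pq.2 ∨ pq.1 + δ = pq.2 + (m + 1)) := by
    intro δ hδ
    rw [Finset.mem_Ico] at hδ
    obtain ⟨p, hp, h1, h2⟩ := disagree H hM hδ.2 (by omega : (0 : ℕ) ≠ δ)
    rw [zero_add] at h1
    by_cases hq : δ + p < m + 1
    · refine ⟨(p, δ + p), ?_, Or.inl (by simp; ring)⟩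
      rw [Finset.mem_offDiag]
      refine ⟨?_, ?_, by simp; omega⟩
      · simp [hΛ, hp, h1]
      · simp [hΛ, hq, h2]
    · refine ⟨(p, δ + p - (m + 1)), ?_, Or.inr (by simp; omega)⟩
      rw [Finset.mem_offDiag]
      refine ⟨?_, ?_, by simp; omega⟩
      · simp [hΛ, hp, h1]
      · have h3 := hper (δ + p - (m + 1)) (by omega)
        rw [show δ + p - (m + 1) + m + 1 = δ + p by omega] at h3
        simp only [hΛ, Finset.mem_filter, Finset.mem_range]
        refine ⟨by omega, fun h => h2 (h3.mp h)⟩
  choose! f hf1 hf2 using hex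
  have hcard : (Finset.Ico 1 M).card ≤ Λ.offDiag.card := by
    refine Finset.card_le_card_of_injOn f (fun δ hδ => hf1 δ hδ) ?_
    intro a ha b hb hab
    have ha' := hf2 a ha
    have hb' := hf2 b hb
    rw [hab] at ha'
    have ha2 := Finset.mem_Ico.mp (Finset.mem_coe.mp ha)
    have hb2 := Finset.mem_Ico.mp (Finset.mem_coe.mp hb)
    omega
  rw [Nat.card_Ico, Finset.offDiag_card, ← hk] at hcard
  have hb := pow_bound k (by omega)
  have hkk : k ≤ k * k := Nat.le_mul_self k
  omega

end core


section lists

variable {A : Type}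

/-- characters of a partial word, extended by wild-cards -/
def ch (w : List (Option A)) (i : ℕ) : Option A := (w[i]?).getD none

lemma getElem?_eq_ch {w : List (Option A)} {i : ℕ} (h : i < w.length) : w[i]? = some (ch w i) := by
  rw [ch, List.getElem?_eq_getElem h]
  rfl

lemma covered_iff {w : List (Option A)} {m : ℕ} (i : ℕ) (u : Fin (m + 1) → A) :
    Covered (m + 1) w i u ↔ i < w.length - m ∧ P (ch w) (m + 1) i u := by
  unfold Covered P ok
  constructor
  · rintro ⟨h1, h2⟩
    refine ⟨by omega, fun j => ?_⟩
    have := h2 j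
    rw [getElem?_eq_ch (by omega)] at this
    simpa using this
  · rintro ⟨h1, h2⟩
    refine ⟨by omega, fun j => ?_⟩
    have := h2 j
    rw [getElem?_eq_ch (by omega)]
    simpa using this

lemma count_window [DecidableEq A] (w : List (Option A)) (n i : ℕ) (h : i + n ≤ w.length) :
    ((w.drop i).take n).count none = dn (ch w) n i := by
  induction n with
  | zero => simp [dn]
  | succ n ih =>
    rw [List.take_add_one, List.count_append, ih (by omega), List.getElem?_drop,
      getElem?_eq_ch (by omega)]
    unfold dn
    rw [Finset.sum_range_succ]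
    congr 1
    cases ch w (i + n) <;> simp

lemma take_eq_drop_iff (w : List (Option A)) (m : ℕ) (h : m ≤ w.length) :
    w.take m = w.drop (w.length - m) ↔ ∀ j, j < m → ch w j = ch w (w.length - m + j) := by
  constructor
  · intro he j hj
    have h1 : (w.take m)[j]? = (w.drop (w.length - m))[j]? := by rw [he]
    rw [List.getElem?_take_of_lt hj, List.getElem?_drop] at h1
    unfold ch
    rw [h1]
  · intro he
    apply List.ext_getElem?
    intro j
    rw [List.getElem?_drop]
    by_cases hj : j < m
    · rw [List.getElem?_take_of_lt hj, getElem?_eq_ch (by omega), getElem?_eq_ch (by omega),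
        he j hj]
    · rw [List.getElem?_eq_none (by rw [List.length_take]; omega),
        List.getElem?_eq_none (by omega)]

/-- For every finite alphabet with at least two letters, every `n ≥ 1` and every nontrivial
universal partial word for `A^n`: well-defined diamondicity, pseudocyclicity and cyclicity are
equivalent. -/
theorem general [Fintype A] [DecidableEq A] [Nontrivial A] (n : ℕ) (hn : 1 ≤ n)
    (w : List (Option A)) (hu : Universal n w) (hnt : ¬ IsTrivial n w) :
    (WellDefinedDiamondicity n w ↔ Pseudocyclic n w) ∧ (Pseudocyclic n w ↔ Cyclic n w) := by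
  obtain ⟨m, rfl⟩ : ∃ m, n = m + 1 := ⟨n - 1, by omega⟩
  set M := w.length - m with hMdef
  have H : U (ch w) m M := by
    intro u
    have := hu u
    simpa only [covered_iff] using this
  obtain ⟨a0, -⟩ := exists_pair_ne A
  have hM : 0 < M := by
    obtain ⟨i, ⟨hi, -⟩, -⟩ := H (fun _ => a0)
    omega
  have hlen : m + 1 ≤ w.length := by omega
  have hwd : WellDefinedDiamondicity (m + 1) w ↔ ∃ d, ∀ i, i < M → dn (ch w) (m + 1) i = d := by
    unfold WellDefinedDiamondicity
    refine exists_congr fun d => ?_
    constructor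
    · intro h i hi
      rw [← count_window w (m + 1) i (by omega)]
      exact h i (by omega)
    · intro h i hi
      rw [count_window w (m + 1) i (by omega)]
      exact h i (by omega)
  have hps : Pseudocyclic (m + 1) w ↔ ∀ j, j < m → ch w j = ch w (M + j) := by
    unfold Pseudocyclic
    simp only [Nat.add_sub_cancel]
    rw [take_eq_drop_iff w m (by omega)]
    constructor
    · exact fun h => h.2
    · exact fun h => ⟨by omega, h⟩
  have h1 : WellDefinedDiamondicity (m + 1) w ↔ Pseudocyclic (m + 1) w := by
    rw [hwd, hps]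
    constructor
    · rintro ⟨d, hd⟩
      have hper : ∀ i, i + 1 < M → (ch w i = none ↔ ch w (i + m + 1) = none) := by
        intro i hi
        rw [per_iff_dn, hd _ hi, hd _ (by omega)]
      exact block_eq (compat_iff H hM hper)
    · intro h
      refine ⟨dn (ch w) (m + 1) 0, ?_⟩
      intro i
      induction i with
      | zero => intro _; rfl
      | succ i ih =>
        intro hi
        rw [← ih (by omega)]
        exact (per_iff_dn (ch w) m i).mp (per_of_pseudo H h i hi)
  refine ⟨h1, ?_⟩
  constructor
  · intro hp
    obtain ⟨d, hd⟩ := hwd.mp (h1.mpr hp)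
    refine ⟨?_, hp.2⟩
    rcases many_windows H hM hd with h | h
    · simp only [Nat.add_sub_cancel]
      omega
    · exfalso
      apply hnt
      left
      subst h
      have htot := total H hd
      have hM1 : M = 1 := by
        have hpos : 0 < Fintype.card A ^ (m + 1) :=
          Nat.pos_of_ne_zero (pow_ne_zero _ Fintype.card_ne_zero)
        exact Nat.eq_of_mul_eq_mul_right hpos (by rw [htot, one_mul])
      have hc := count_window w (m + 1) 0 (by omega)
      rw [hd 0 hM, List.drop_zero, List.take_of_length_le (by omega)] at hc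
      have hl : w.length = m + 1 := by omega
      rw [← hl] at hc ⊢
      rw [List.count_eq_length] at hc
      exact List.eq_replicate_of_mem fun b hb => (hc b hb).symm
  · rintro ⟨hc1, hc2⟩
    exact ⟨by omega, hc2⟩

end lists

/-- **Q1 of MP_e9025c_co.** For the binary alphabet, for every `n`, a nontrivial universal partial
word has well-defined diamondicity if and only if it is pseudocyclic, if and only if it is
cyclic; the same holds over every finite alphabet with at least two letters. -/
theorem result :
    (∀ n : ℕ, 1 ≤ n → ∀ w : List (Option Bool), Universal n w → ¬ IsTrivial n w →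
      (WellDefinedDiamondicity n w ↔ Pseudocyclic n w) ∧ (Pseudocyclic n w ↔ Cyclic n w)) ∧
    (∀ (A : Type) [Fintype A] [DecidableEq A] [Nontrivial A] (n : ℕ), 1 ≤ n →
      ∀ w : List (Option A), Universal n w → ¬ IsTrivial n w →
      (WellDefinedDiamondicity n w ↔ Pseudocyclic n w) ∧ (Pseudocyclic n w ↔ Cyclic n w)) :=
  ⟨fun n hn w hu hnt => general n hn w hu hnt,
   fun _ _ _ _ n hn w hu hnt => general n hn w hu hnt⟩

end Pool.Agent.Results.MP_e9025c_co.CyclicityNotions
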